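import Mathlib
import Pool.Agent.H.MP_af1bb3_co.C

namespace Pool.Agent.Results.MP_af1bb3_co.LogLog

def Dom {n : ℕ} (G : SimpleGraph (Fin n)) (S : Finset (Fin n)) : Prop :=
  ∀ v, v ∉ S → ∃ w ∈ S, G.Adj v w

noncomputable def gam {n : ℕ} (G : SimpleGraph (Fin n)) : ℕ :=
  sInf {m | ∃ S : Finset (Fin n), Dom G S ∧ S.card = m}

noncomputable def gamc {n : ℕ} (G : SimpleGraph (Fin n)) : ℕ :=
  sInf {m | ∃ S : Finset (Fin n), Dom G S ∧ (G.induce (S : Set (Fin n))).Connected ∧ S.card = m}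

def Adm (n k : ℕ) (G : SimpleGraph (Fin n)) : Prop :=
  G.Connected ∧ ∀ v, k ≤ (G.neighborSet v).ncard

theorem part1 (ε : ℝ) (hε : 0 < ε) : ∃ k₀ C₀ : ℕ, ∀ k n : ℕ, k₀ ≤ k → C₀ * k ≤ n →
    ∃ G : SimpleGraph (Fin n), Adm n k G ∧
      (1 - ε) * ((n:ℝ) / ((k:ℝ) + 1)) * Real.log (Real.log ((k:ℝ) + 1)) ≤ (gamc G : ℝ) - gam G := by
  obtain ⟨k₀, C₀, h⟩ := Pool.Agent.H.MP_af1bb3_co.main ε hε
  refine ⟨k₀, C₀, fun k n hk hn => ?_⟩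
  obtain ⟨G, h1, h2, S, hS, h3⟩ := h k n hk hn
  refine ⟨G, ⟨h1, h2⟩, ?_⟩
  have hne : {m | ∃ S : Finset (Fin n), Dom G S ∧ (G.induce (S : Set (Fin n))).Connected ∧
      S.card = m}.Nonempty := by
    refine ⟨_, Finset.univ, fun v hv => absurd (Finset.mem_univ v) hv, ?_, rfl⟩
    rw [Finset.coe_univ]
    exact (SimpleGraph.induceUnivIso G).connected_iff.mpr h1
  obtain ⟨D, hD, hc, hDc⟩ := Nat.sInf_mem hne
  have h4 := h3 D hD (fun h2D v hv => by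
    obtain ⟨w, hw, hne⟩ := Finset.exists_mem_ne h2D v
    obtain ⟨p⟩ := hc.preconnected ⟨v, hv⟩ ⟨w, hw⟩
    cases p with
    | nil => exact absurd rfl hne
    | cons hadj _ => exact ⟨_, Subtype.prop _, hadj⟩)
  have h5 : gam G ≤ S.card := Nat.sInf_le ⟨S, hS, rfl⟩
  have h5' : (gam G : ℝ) ≤ S.card := by exact_mod_cast h5
  have h6 : (gamc G : ℝ) = D.card := by rw [hDc]; rfl
  linarith

theorem result :
    (∀ ε : ℝ, 0 < ε → ∃ k₀ C₀ : ℕ, ∀ k n : ℕ, k₀ ≤ k → C₀ * k ≤ n →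
      ∃ G : SimpleGraph (Fin n), Adm n k G ∧
        (1 - ε) * ((n:ℝ) / ((k:ℝ) + 1)) * Real.log (Real.log ((k:ℝ) + 1)) ≤ (gamc G : ℝ) - gam G) ∧
    (∀ C : ℝ, ∃ k n : ℕ, 1 ≤ k ∧ k + 1 ≤ n ∧ ∃ G : SimpleGraph (Fin n), Adm n k G ∧
        C * ((n:ℝ) / ((k:ℝ) + 1)) < (gamc G : ℝ) - gam G) := by
  refine ⟨part1, fun C => ?_⟩
  obtain ⟨k₀, C₀, h⟩ := part1 (1 / 2) (by norm_num)
  set k := ⌈Real.exp (Real.exp (2 * C + 2))⌉₊ + k₀ with hk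
  obtain ⟨h1, h2, -⟩ := Pool.Agent.H.MP_af1bb3_co.loglog_ge (2 * C + 2) k (by omega)
  obtain ⟨G, hG, h3⟩ := h k (C₀ * k + (k + 1)) (by omega) (by omega)
  refine ⟨k, _, h1, by omega, G, hG, lt_of_lt_of_le ?_ h3⟩
  have : 0 < ((C₀ * k + (k + 1) : ℕ) : ℝ) / ((k:ℝ) + 1) := by positivity
  nlinarith

end Pool.Agent.Results.MP_af1bb3_co.LogLog
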